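import Mathlib
import Pool.Agent.N990.EJ.Main

/-!
# Edwards-Anderson spin glass measures on the hierarchical lattice of dimension two

The lattices and the model are defined in `Pool.Agent.N988.EA.Defs` (`Edge`, `Vert`, `Pt`, `emb`, `bd`,
`sg`, `act`, `Z`, `pm`), `Pool.Agent.N988.EA.Defs2` (`EdgeInf`, `cpl`), `Pool.Agent.N988.EA.Defs3`
(`Uni`) and `Pool.Agent.N990.EJ.Defs` (`VInf`, `inc`, `repl`, `gw`, `IsEA`, `Law`, `corr`).

Authors: helper990 (statements, assembly) and helper988 (the contraction of the laws of the
effective couplings and the almost sure uniqueness of the Gibbs states, part (1) of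
`Pool.Agent.Results.MP_81d17b_pr.HierarchicalSpinGlass`, which is used for the uniqueness, with the
co-authors named there; finite correlation length) and, for the parts in Lean, the helpers 14, 371,
409, 524, 572, 669, 712, 946 and 982.
-/

open MeasureTheory
open Pool.Agent.N988.EA Pool.Agent.N990.EJ

namespace Pool.Agent.Results.MP_c70b3b_mp.HierarchicalMeasures

/-- The Edwards-Anderson Ising spin glass on the infinite hierarchical (diamond, Migdal-Kadanoff)
lattices with two branches, of dimension two, for independent couplings whose law `μ` is `±1` with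
probability one half or has an even density, decreasing on the positive half-line, with exponential
moments, for example the standard normal law. At every inverse temperature `β` there is exactly one
EA spin glass measure (joint law of the couplings and the spins), on every infinite lattice in which
all vertices are inside some `H n`, and the correlation length is finite: the expectation of the
square of the correlation of the spins at the two ends of `H n`, at distance `2 ^ n`, is at most
`C exp (- c 2 ^ n)`. -/
theorem result :
    (Law (ProbabilityTheory.gaussianReal 0 1) ∧ Law pm) ∧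
    ∀ (μ : Measure ℝ) [IsProbabilityMeasure μ], Law μ → ∀ β : ℝ,
      (∀ p : ℕ → Fin 2 × Bool, (∀ (s : Bool) (k : ℕ), ∃ n, k ≤ n ∧ (p n).2 = s) →
        ∃! ρ : Measure ((EdgeInf 2 p → ℝ) × (VInf p → Bool)), IsEA μ β p ρ) ∧
      ∃ C c : ℝ, 0 < c ∧ ∀ n : ℕ,
        ∫ J, corr (fun e => β * J e) ^ 2 ∂(Measure.pi fun _ : Edge 2 n => μ) ≤
          C * Real.exp (-(c * 2 ^ n)) :=
  ⟨⟨Or.inr ⟨k_gauss.1, 1, one_pos, k_gauss.2⟩, Or.inl rfl⟩, fun μ _ h β =>
    ⟨fun p hp => exactly_one μ h β p hp, k_cor k_G k_H k_T k_T1 k_lim μ h β⟩⟩

end Pool.Agent.Results.MP_c70b3b_mp.HierarchicalMeasures
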